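import Pool.Agent.Helper66.NI.Stmts

/-! # MP_119d8d_an, module ATL: Lebesgue measure on the interval is atomless -/

open MeasureTheory
open scoped ENNReal

namespace Pool.Agent.Helper66.NI

theorem st_ATL : ST_ATL := by
  intro A hA h0
  obtain ⟨n, hn⟩ := ENNReal.exists_inv_nat_lt h0
  have hn0 : n ≠ 0 := by
    rintro rfl
    simp at hn
  have hnR : (0 : ℝ) < n := by exact_mod_cast Nat.pos_of_ne_zero hn0
  obtain ⟨k, hk⟩ : ∃ k : ℤ, mu01 (A ∩ {x | ⌊(n : ℝ) * x⌋ = k}) ≠ 0 := by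
    by_contra h
    push Not at h
    have h1 : A = ⋃ k : ℤ, A ∩ {x | ⌊(n : ℝ) * x⌋ = k} := by
      ext x
      simp
    apply h0
    rw [h1]
    exact measure_iUnion_null h
  have hsub : {x : ℝ | ⌊(n : ℝ) * x⌋ = k} ⊆ Set.Icc ((k : ℝ) / n) ((k + 1 : ℝ) / n) := by
    intro x hx
    have hx' : ⌊(n : ℝ) * x⌋ = k := hx
    rw [Int.floor_eq_iff] at hx'
    constructor
    · rw [div_le_iff₀ hnR]
      linarith [hx'.1]
    · rw [le_div_iff₀ hnR]
      linarith [hx'.2]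
  have hmeas : MeasurableSet {x : ℝ | ⌊(n : ℝ) * x⌋ = k} := by
    have : Measurable (fun x : ℝ => ⌊(n : ℝ) * x⌋) :=
      Int.measurable_floor.comp (measurable_const.mul measurable_id)
    exact this (measurableSet_singleton k)
  have hle : mu01 (A ∩ {x | ⌊(n : ℝ) * x⌋ = k}) ≤ (n : ℝ≥0∞)⁻¹ := by
    calc mu01 (A ∩ {x | ⌊(n : ℝ) * x⌋ = k}) ≤ mu01 (Set.Icc ((k : ℝ) / n) ((k + 1 : ℝ) / n)) :=
          measure_mono (Set.inter_subset_right.trans hsub)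
      _ ≤ volume (Set.Icc ((k : ℝ) / n) ((k + 1 : ℝ) / n)) := Measure.restrict_apply_le _ _
      _ = ENNReal.ofReal ((k + 1 : ℝ) / n - (k : ℝ) / n) := Real.volume_Icc
      _ = ENNReal.ofReal ((n : ℝ)⁻¹) := by
          congr 1
          field_simp
          ring
      _ = (n : ℝ≥0∞)⁻¹ := by
          rw [ENNReal.ofReal_inv_of_pos hnR, ENNReal.ofReal_natCast]
  refine ⟨A ∩ {x | ⌊(n : ℝ) * x⌋ = k}, Set.inter_subset_left, hA.inter hmeas, hk, fun h => ?_⟩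
  have h2 : mu01 A ≤ mu01 (A ∩ {x | ⌊(n : ℝ) * x⌋ = k})
      + mu01 (A \ (A ∩ {x | ⌊(n : ℝ) * x⌋ = k})) := by
    calc mu01 A ≤ mu01 ((A ∩ {x | ⌊(n : ℝ) * x⌋ = k}) ∪ (A \ (A ∩ {x | ⌊(n : ℝ) * x⌋ = k}))) :=
          measure_mono (by
            intro x hx
            by_cases hx' : x ∈ A ∩ {x | ⌊(n : ℝ) * x⌋ = k}
            · exact Or.inl hx'
            · exact Or.inr ⟨hx, hx'⟩)
      _ ≤ _ := measure_union_le _ _
  rw [h, add_zero] at h2
  exact absurd (h2.trans hle) (not_le.2 hn)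

end Pool.Agent.Helper66.NI
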